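import Pool.Agent.Q285.LS.ALG
import Pool.Agent.Q285.LS.PAR
import Pool.Agent.Q285.LS.ARC
import Pool.Agent.Q47.LS.Bad
import Pool.Agent.Q47.LS.Wide
import Pool.Agent.Q47.LS.Low

/-!
# Contact numbers of `lambda`-separable packings of unit disks

For every `lam` with `√3 / 2 < lam ≤ 1` and every `n > 1` the largest contact number of a
`lam`-separable packing of `n` unit disks is `⌊2 n - 2 √n⌋`.
-/

namespace Pool.Agent.Results.MP_6a1796_co.ContactNumbers

open Real Pool.Agent.Q47.LS

/-- the Euclidean plane -/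
abbrev Plane : Type := EuclideanSpace ℝ (Fin 2)

/-- the closed disks of radius `r` with centres `x i` have pairwise disjoint interiors -/
def IsPacking {n : ℕ} (r : ℝ) (x : Fin n → Plane) : Prop :=
  ∀ i j, i ≠ j →
    Disjoint (interior (Metric.closedBall (x i) r)) (interior (Metric.closedBall (x j) r))

/-- any two of the closed disks of radius `r` with centres `x i` lie on different sides of a line
which is disjoint from the interior of every disk of the family -/
def IsTotallySeparable {n : ℕ} (r : ℝ) (x : Fin n → Plane) : Prop :=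
  ∀ i j, i ≠ j → ∃ (N : Plane) (c : ℝ), N ≠ 0 ∧
    (∀ z ∈ Metric.closedBall (x i) r, inner ℝ N z ≤ c) ∧
    (∀ z ∈ Metric.closedBall (x j) r, c ≤ inner ℝ N z) ∧
    ∀ k, ∀ z ∈ interior (Metric.closedBall (x k) r), inner ℝ N z ≠ c

/-- a `lam`-separable packing of unit disks: the unit disks form a packing, and the disks of
radius `lam` with the same centres form a totally separable packing -/
def IsSeparablePacking {n : ℕ} (lam : ℝ) (x : Fin n → Plane) : Prop :=
  IsPacking 1 x ∧ IsPacking lam x ∧ IsTotallySeparable lam x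

/-- the contact number: the number of pairs of centres at distance exactly `2` -/
noncomputable def contactNumber {n : ℕ} (x : Fin n → Plane) : ℕ :=
  Set.ncard {p : Fin n × Fin n | p.1 < p.2 ∧ dist (x p.1) (x p.2) = 2}

/-! ### coordinates -/

/-- coordinates of a point -/
def toPt (v : Plane) : Pt := (v 0, v 1)

/-- the point with given coordinates -/
noncomputable def ofPt (p : Pt) : Plane := !₂[p.1, p.2]

theorem toPt_ofPt (p : Pt) : toPt (ofPt p) = p := by
  unfold toPt ofPt
  simp

theorem dist_sq_eq (v w : Plane) : dist v w ^ 2 = dsq (toPt v) (toPt w) := by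
  rw [EuclideanSpace.dist_eq, Real.sq_sqrt (Finset.sum_nonneg fun i _ => sq_nonneg _)]
  rw [Fin.sum_univ_two, Real.dist_eq, Real.dist_eq, sq_abs, sq_abs]
  rfl

theorem dist_eq_two_iff (v w : Plane) : dist v w = 2 ↔ dsq (toPt v) (toPt w) = 4 := by
  rw [← dist_sq_eq]
  constructor
  · intro h; rw [h]; norm_num
  · intro h
    have h0 := dist_nonneg (x := v) (y := w)
    nlinarith

theorem two_le_dist_iff (v w : Plane) : 2 ≤ dist v w ↔ 4 ≤ dsq (toPt v) (toPt w) := by
  rw [← dist_sq_eq]
  have h0 := dist_nonneg (x := v) (y := w)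
  constructor
  · intro h; nlinarith
  · intro h; by_contra hh; push Not at hh; nlinarith

theorem inner_eq (N z : Plane) : inner ℝ N z = N 0 * z 0 + N 1 * z 1 := by
  rw [PiLp.inner_apply, Fin.sum_univ_two]
  simp [mul_comm]

theorem exists_angle (N : Plane) (hN : N ≠ 0) :
    ∃ r t : ℝ, 0 < r ∧ ∀ z : Plane, inner ℝ N z = r * lf t (toPt z) := by
  have hz : (⟨N 0, N 1⟩ : ℂ) ≠ 0 := by
    intro h
    apply hN
    have h0 := congrArg Complex.re h
    have h1 := congrArg Complex.im h
    ext i
    fin_cases i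
    · simpa using h0
    · simpa using h1
  refine ⟨‖(⟨N 0, N 1⟩ : ℂ)‖, Complex.arg ⟨N 0, N 1⟩, norm_pos_iff.mpr hz, ?_⟩
  intro z
  have hr : ‖(⟨N 0, N 1⟩ : ℂ)‖ ≠ 0 := norm_ne_zero_iff.mpr hz
  rw [inner_eq]
  unfold lf toPt
  rw [Complex.cos_arg hz, Complex.sin_arg]
  field_simp

theorem lf_dist_le (t : ℝ) (v w : Plane) : |lf t (toPt v) - lf t (toPt w)| ≤ dist v w := by
  have h := dsq_frame t (toPt v) (toPt w)
  rw [← dist_sq_eq] at h
  apply abs_le_of_sq_le_sq _ dist_nonneg
  nlinarith [sq_nonneg (lg t (toPt v) - lg t (toPt w))]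

theorem interior_ball {r : ℝ} (hr : 0 < r) (v : Plane) :
    interior (Metric.closedBall v r) = Metric.ball v r :=
  interior_closedBall v hr.ne'

theorem packing_iff {n : ℕ} {r : ℝ} (hr : 0 < r) (x : Fin n → Plane) :
    IsPacking r x ↔ ∀ i j, i ≠ j → r + r ≤ dist (x i) (x j) := by
  unfold IsPacking
  constructor
  · intro h i j hij
    have := h i j hij
    rw [interior_ball hr, interior_ball hr] at this
    exact (disjoint_ball_ball_iff hr hr).mp this
  · intro h i j hij
    rw [interior_ball hr, interior_ball hr]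
    exact (disjoint_ball_ball_iff hr hr).mpr (h i j hij)

/-- the line of a totally separable family keeps its distance -/
theorem line_of_disjoint {n : ℕ} {r : ℝ} (hr : 0 < r) {x : Fin n → Plane} {N : Plane} {c ρ t : ℝ}
    (hρ : 0 < ρ) (hN : ∀ z : Plane, inner ℝ N z = ρ * lf t (toPt z))
    (h : ∀ k, ∀ z ∈ interior (Metric.closedBall (x k) r), inner ℝ N z ≠ c) (k : Fin n) :
    r ≤ |lf t (toPt (x k)) - c / ρ| := by
  by_contra hh
  push Not at hh
  set a := lf t (toPt (x k)) - c / ρ with ha
  set w : Plane := x k - a • ofPt (cos t, sin t) with hw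
  have w0 : w 0 = x k 0 - a * cos t := by rw [hw]; simp [ofPt]
  have w1 : w 1 = x k 1 - a * sin t := by rw [hw]; simp [ofPt]
  have hd : dist w (x k) = |a| := by
    have h1 := dist_sq_eq w (x k)
    have h2 : dsq (toPt w) (toPt (x k)) = a ^ 2 := by
      unfold dsq toPt
      simp only [w0, w1]
      have := cos_sq_add_sin_sq t
      calc (x k 0 - a * cos t - x k 0) ^ 2 + (x k 1 - a * sin t - x k 1) ^ 2
          = a ^ 2 * (cos t ^ 2 + sin t ^ 2) := by ring
        _ = a ^ 2 := by rw [this, mul_one]
    rw [h2] at h1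
    rw [← abs_of_nonneg (dist_nonneg (x := w) (y := x k))]
    exact (sq_eq_sq_iff_abs_eq_abs _ _).mp h1
  have hmem : w ∈ interior (Metric.closedBall (x k) r) := by
    rw [interior_ball hr, Metric.mem_ball, hd]
    exact hh
  apply h k w hmem
  rw [hN w]
  have : lf t (toPt w) = c / ρ := by
    have h3 : lf t (toPt w) = lf t (toPt (x k)) - a * (cos t ^ 2 + sin t ^ 2) := by
      unfold lf toPt
      simp only [w0, w1]
      ring
    rw [h3, cos_sq_add_sin_sq, ha]
    ring
  rw [this]
  field_simp

/-- the set of centres in coordinates -/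
noncomputable def centres {n : ℕ} (x : Fin n → Plane) : Finset Pt :=
  Finset.univ.image fun i => toPt (x i)

theorem sep_of {n : ℕ} {lam : ℝ} (hl : 0 < lam) {x : Fin n → Plane}
    (h : IsSeparablePacking lam x) : Sep lam (centres x) := by
  obtain ⟨h1, -, h3⟩ := h
  rw [packing_iff one_pos] at h1
  constructor
  · intro z hz w hw hne
    unfold centres at hz hw
    rw [Finset.mem_image] at hz hw
    obtain ⟨i, -, rfl⟩ := hz
    obtain ⟨j, -, rfl⟩ := hw
    rw [← two_le_dist_iff]
    have hij : i ≠ j := by rintro rfl; exact hne rfl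
    linarith [h1 i j hij]
  · intro z hz w hw hne
    unfold centres at hz hw
    rw [Finset.mem_image] at hz hw
    obtain ⟨i, -, rfl⟩ := hz
    obtain ⟨j, -, rfl⟩ := hw
    have hij : i ≠ j := by rintro rfl; exact hne rfl
    obtain ⟨N, c, hN0, hi, hj, hk⟩ := h3 i j hij
    obtain ⟨ρ, t, hρ, hN⟩ := exists_angle N hN0
    have hline := line_of_disjoint hl hρ hN hk
    refine ⟨t, c / ρ, ?_, ?_, ?_⟩
    · intro z hz
      unfold centres at hz
      rw [Finset.mem_image] at hz
      obtain ⟨k, -, rfl⟩ := hz
      exact hline k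
    · have e1 := hi (x i) (Metric.mem_closedBall_self hl.le)
      rw [hN] at e1
      have e2 : lf t (toPt (x i)) ≤ c / ρ := by
        rw [le_div_iff₀ hρ]; linarith
      have e3 := hline i
      rcases e2.lt_or_eq with h | h
      · exact h
      · rw [h, sub_self, abs_zero] at e3; linarith
    · have e1 := hj (x j) (Metric.mem_closedBall_self hl.le)
      rw [hN] at e1
      have e2 : c / ρ ≤ lf t (toPt (x j)) := by
        rw [div_le_iff₀ hρ]; linarith
      have e3 := hline j
      rcases e2.lt_or_eq with h | h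
      · exact h
      · rw [← h, sub_self, abs_zero] at e3; linarith

theorem cn_centres {n : ℕ} {x : Fin n → Plane} (hx : Function.Injective fun i => toPt (x i)) :
    cn (centres x) (centres x) = 2 * contactNumber x := by
  classical
  set S : Finset (Fin n × Fin n) :=
    Finset.univ.filter fun p => p.1 < p.2 ∧ dist (x p.1) (x p.2) = 2 with hS
  have h1 : contactNumber x = S.card := by
    unfold contactNumber
    rw [← Set.ncard_coe_finset]
    congr 1
    ext p
    simp [hS]
  set T : Finset (Fin n × Fin n) :=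
    Finset.univ.filter fun p => dist (x p.1) (x p.2) = 2 with hT
  have h2 : T = S ∪ S.image Prod.swap := by
    ext p
    rw [Finset.mem_union, Finset.mem_image, hT, Finset.mem_filter]
    constructor
    · rintro ⟨-, h⟩
      rcases lt_trichotomy p.1 p.2 with h3 | h3 | h3
      · left; rw [hS, Finset.mem_filter]; exact ⟨Finset.mem_univ _, h3, h⟩
      · rw [h3, dist_self] at h; norm_num at h
      · right
        refine ⟨p.swap, ?_, Prod.swap_swap p⟩
        rw [hS, Finset.mem_filter]
        exact ⟨Finset.mem_univ _, h3, by rw [dist_comm]; exact h⟩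
    · rintro (h | ⟨q, h, rfl⟩)
      · rw [hS, Finset.mem_filter] at h
        exact ⟨Finset.mem_univ _, h.2.2⟩
      · rw [hS, Finset.mem_filter] at h
        exact ⟨Finset.mem_univ _, by rw [dist_comm]; exact h.2.2⟩
  have h3 : Disjoint S (S.image Prod.swap) := by
    rw [Finset.disjoint_left]
    intro p hp hp'
    rw [Finset.mem_image] at hp'
    obtain ⟨q, hq, rfl⟩ := hp'
    rw [hS, Finset.mem_filter] at hp hq
    exact absurd hp.2.1 (not_lt.mpr hq.2.1.le)
  have h4 : T.card = 2 * S.card := by
    rw [h2, Finset.card_union_of_disjoint h3,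
      Finset.card_image_of_injective _ Prod.swap_injective]
    ring
  rw [h1, ← h4]
  unfold cn
  symm
  apply Finset.card_bij (fun p _ => (toPt (x p.1), toPt (x p.2)))
  · intro p hp
    rw [hT, Finset.mem_filter] at hp
    rw [Finset.mem_filter, Finset.mem_product]
    unfold centres
    exact ⟨⟨Finset.mem_image_of_mem _ (Finset.mem_univ _),
      Finset.mem_image_of_mem _ (Finset.mem_univ _)⟩, (dist_eq_two_iff _ _).mp hp.2⟩
  · intro p _ q _ h
    rw [Prod.mk.injEq] at h
    exact Prod.ext (hx h.1) (hx h.2)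
  · intro p hp
    rw [Finset.mem_filter, Finset.mem_product] at hp
    unfold centres at hp
    rw [Finset.mem_image, Finset.mem_image] at hp
    obtain ⟨⟨⟨i, -, hi⟩, ⟨j, -, hj⟩⟩, hd⟩ := hp
    refine ⟨(i, j), ?_, Prod.ext hi hj⟩
    rw [hT, Finset.mem_filter]
    refine ⟨Finset.mem_univ _, ?_⟩
    rw [dist_eq_two_iff, hi, hj]
    exact hd

theorem inj_of_packing {n : ℕ} {x : Fin n → Plane} (h : IsPacking 1 x) :
    Function.Injective fun i => toPt (x i) := by
  intro i j hij
  by_contra hne
  rw [packing_iff one_pos] at h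
  have h1 := h i j hne
  have h2 := dist_sq_eq (x i) (x j)
  have hij' : toPt (x i) = toPt (x j) := hij
  rw [hij', dsq_self] at h2
  nlinarith

/-- the width lemma, for all separable sets -/
theorem wide : S_wide :=
  t_wide (Pool.Agent.Q285.LS.t_arc t_bad) Pool.Agent.Q285.LS.t_par Pool.Agent.Q285.LS.t_alg0
    Pool.Agent.Q285.LS.t_alg

/-- the upper bound -/
theorem upper {lam : ℝ} (h1 : √3 / 2 < lam) (h2 : lam ≤ 1) {n : ℕ} {x : Fin n → Plane}
    (h : IsSeparablePacking lam x) : (contactNumber x : ℝ) ≤ 2 * (n : ℝ) - 2 * √(n : ℝ) := by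
  have h30 : 0 < √3 := Real.sqrt_pos.mpr (by norm_num)
  have hinj := inj_of_packing h.1
  have hw := (wide lam h1 h2 (centres x) (sep_of (by linarith) h) (centres x)
    (Finset.Subset.refl _)).1
  have hc : (centres x).card = n := by
    unfold centres
    rw [Finset.card_image_of_injective _ hinj, Finset.card_univ, Fintype.card_fin]
  rw [hc, cn_centres hinj] at hw
  push_cast at hw
  linarith

/-- the lower bound -/
theorem lower {lam : ℝ} (h0 : 0 < lam) (h2 : lam ≤ 1) {n : ℕ} (hn : 1 ≤ n) :
    ∃ x : Fin n → Plane, IsSeparablePacking lam x ∧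
      ⌊2 * (n : ℝ) - 2 * √(n : ℝ)⌋₊ ≤ contactNumber x := by
  obtain ⟨X, hX, hsep, hcn⟩ := t_low n hn
  set e := X.equivFinOfCardEq hX with he
  set x : Fin n → Plane := fun i => ofPt (e.symm i).1 with hx
  have hxt : ∀ i, toPt (x i) = (e.symm i).1 := fun i => toPt_ofPt _
  have hxm : ∀ i, toPt (x i) ∈ X := fun i => by rw [hxt]; exact (e.symm i).2
  have hne : ∀ i j, i ≠ j → toPt (x i) ≠ toPt (x j) := by
    intro i j hij h
    rw [hxt, hxt] at h
    exact hij (e.symm.injective (Subtype.ext h))
  have hdist : ∀ i j, i ≠ j → 2 ≤ dist (x i) (x j) := by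
    intro i j hij
    rw [two_le_dist_iff]
    exact hsep.pack _ (hxm i) _ (hxm j) (hne i j hij)
  have hpack : IsPacking 1 x := by
    rw [packing_iff one_pos]
    intro i j hij
    linarith [hdist i j hij]
  refine ⟨x, ⟨hpack, ?_, ?_⟩, ?_⟩
  · rw [packing_iff h0]
    intro i j hij
    linarith [hdist i j hij]
  · intro i j hij
    obtain ⟨t, c, hl, hi, hj⟩ := hsep.sep _ (hxm i) _ (hxm j) (hne i j hij)
    have hin : ∀ z : Plane, inner ℝ (ofPt (cos t, sin t)) z = lf t (toPt z) := by
      intro z
      rw [inner_eq]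
      unfold lf toPt ofPt
      simp
    refine ⟨ofPt (cos t, sin t), c, ?_, ?_, ?_, ?_⟩
    · intro h
      have h1 : toPt (ofPt (cos t, sin t)) = toPt 0 := by rw [h]
      rw [toPt_ofPt] at h1
      have h3 := congrArg Prod.fst h1
      have h4 := congrArg Prod.snd h1
      have h5 : cos t = 0 := by simpa [toPt] using h3
      have h6 : sin t = 0 := by simpa [toPt] using h4
      have := cos_sq_add_sin_sq t
      rw [h5, h6] at this
      norm_num at this
    · intro z hz
      rw [hin]
      rw [Metric.mem_closedBall] at hz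
      have a1 := lf_dist_le t z (x i)
      have a2 := hl.le_of_lt (hxm i) hi
      rw [abs_le] at a1
      linarith [a1.2]
    · intro z hz
      rw [hin]
      rw [Metric.mem_closedBall] at hz
      have a1 := lf_dist_le t z (x j)
      have a2 := hl.ge_of_gt (hxm j) hj
      rw [abs_le] at a1
      linarith [a1.1]
    · intro k z hz hzc
      rw [interior_ball h0, Metric.mem_ball] at hz
      rw [hin] at hzc
      have a1 := lf_dist_le t z (x k)
      have a2 := hl _ (hxm k)
      rw [hzc, abs_sub_comm] at a1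
      linarith
  · have hcent : centres x = X := by
      unfold centres
      ext z
      rw [Finset.mem_image]
      constructor
      · rintro ⟨i, -, rfl⟩; exact hxm i
      · intro hz
        refine ⟨e ⟨z, hz⟩, Finset.mem_univ _, ?_⟩
        rw [hxt, Equiv.symm_apply_apply]
    have := cn_centres (inj_of_packing hpack)
    rw [hcent] at this
    omega

/-- **Contact numbers of `lam`-separable packings.** For all `√3 / 2 < lam ≤ 1` and all `n > 1`
the largest contact number of a `lam`-separable packing of `n` unit disks is `⌊2 n - 2 √n⌋`. -/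
theorem result (lam : ℝ) (h1 : √3 / 2 < lam) (h2 : lam ≤ 1) (n : ℕ) (hn : 1 < n) :
    IsGreatest {k : ℕ | ∃ x : Fin n → Plane, IsSeparablePacking lam x ∧ contactNumber x = k}
      ⌊2 * (n : ℝ) - 2 * √(n : ℝ)⌋₊ := by
  have h30 : 0 < √3 := Real.sqrt_pos.mpr (by norm_num)
  have hup : ∀ x : Fin n → Plane, IsSeparablePacking lam x →
      contactNumber x ≤ ⌊2 * (n : ℝ) - 2 * √(n : ℝ)⌋₊ := by
    intro x hx
    exact Nat.le_floor (upper h1 h2 hx)
  constructor
  · obtain ⟨x, hx, hc⟩ := lower (lam := lam) (by linarith) h2 (n := n) (by omega)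
    exact ⟨x, hx, le_antisymm (hup x hx) hc⟩
  · rintro k ⟨x, hx, rfl⟩
    exact hup x hx

end Pool.Agent.Results.MP_6a1796_co.ContactNumbers
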